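import Pool.Agent.L7h2.ME.Stm2

set_option autoImplicit false

namespace Pool.Agent.L7h2.ME

open Finset Filter Polynomial
open Pool.Agent.H646 (P rat)
open Pool.Agent.H646.TuplesM (rat_nonneg)
open Pool.Agent.H646.ChebM (P_le P_strictMono le_P)
open Pool.Agent.H342R2.SP (FF IntVal FF_cast FF_per FF_mono ev_Q g_lt MB PZ prod_le_sum_pow')
open Pool.Agent.H373R2.BH (pair_window single_window)

lemma ex_ge {δ : ℝ} (hδ : δ < 1 / 4) (d : ℕ) : 1 / 4 ≤ ex δ d := by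
  unfold ex
  split_ifs with h
  · linarith
  · have : (2 : ℝ) ≤ d := by exact_mod_cast (by omega : 2 ≤ d)
    linarith

/-- the size of the polynomials -/
lemma size (Q : ℚ[X]) (hQ : IntVal Q) (hlc : 0 < Q.leadingCoeff) (D : ℕ) (hD : Q.natDegree ≤ D) :
    ∃ n₀ : ℕ, (∀ n, n₀ ≤ n → FF Q n ≤ FF Q (n + 1)) ∧ Pool.Agent.H342R2.SP.Per (FF Q) D n₀ ∧
      ∃ N₀ : ℕ, ∀ N, N₀ ≤ N → P (2 * N) + 2 * FF Q (2 * N) ≤ N ^ (D + 3) := by
  obtain ⟨n₀, h1, h2⟩ := ev_Q Q hlc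
  obtain ⟨C₀, hC₀, hP⟩ := P_le
  refine ⟨n₀, fun n hn => FF_mono (fun n hn => (h1 n hn).2) n hn, FF_per hQ hD fun n hn => (h1 n hn).1, ?_⟩
  set C₁ : ℕ := ⌈C₀⌉₊ with hC₁
  refine ⟨n₀ + 4 * C₁ + 2 * 3 ^ (D + 1) + 4, fun N hN => ?_⟩
  have hN4 : 4 ≤ N := by omega
  have hFc : ((FF Q (2 * N) : ℕ) : ℚ) = Q.eval ((2 * N : ℕ) + 1 : ℚ) := by
    have := FF_cast hQ (fun n hn => (h1 n hn).1) (show n₀ ≤ 2 * N by omega)
    exact_mod_cast this
  have hF : FF Q (2 * N) ≤ (2 * N + 1) ^ (Q.natDegree + 1) := by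
    have h3 := h2 (2 * N + 1) (by omega)
    have h4 : ((FF Q (2 * N) : ℕ) : ℚ) ≤ (((2 * N + 1) ^ (Q.natDegree + 1) : ℕ) : ℚ) := by
      rw [hFc]
      push_cast at h3 ⊢
      exact h3
    exact_mod_cast h4
  have hF2 : FF Q (2 * N) ≤ 3 ^ (D + 1) * N ^ (D + 1) := by
    refine hF.trans ?_
    calc (2 * N + 1) ^ (Q.natDegree + 1) ≤ (3 * N) ^ (Q.natDegree + 1) := Nat.pow_le_pow_left (by omega) _
      _ ≤ (3 * N) ^ (D + 1) := Nat.pow_le_pow_right (by omega) (by omega)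
      _ = _ := by rw [mul_pow]
  have hP2 : P (2 * N) ≤ C₁ * (4 * N ^ 2) := by
    have h3 := hP (2 * N) (by omega)
    have h4 : Real.log ((2 * N : ℕ) : ℝ) ≤ ((2 * N : ℕ) : ℝ) := by
      have : (0 : ℝ) < ((2 * N : ℕ) : ℝ) := by positivity
      linarith [Real.log_le_sub_one_of_pos this]
    have h5 : (P (2 * N) : ℝ) ≤ ((C₁ * (4 * N ^ 2) : ℕ) : ℝ) := by
      refine h3.trans ?_
      have h6 : C₀ ≤ C₁ := Nat.le_ceil _
      have h7 : (0 : ℝ) ≤ ((2 * N : ℕ) : ℝ) := by positivity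
      calc C₀ * (((2 * N : ℕ) : ℝ) * Real.log ((2 * N : ℕ) : ℝ)) ≤ C₁ * (((2 * N : ℕ) : ℝ) * ((2 * N : ℕ) : ℝ)) := by
            apply mul_le_mul h6 (mul_le_mul_of_nonneg_left h4 h7) (mul_nonneg h7 (Real.log_natCast_nonneg _)) (Nat.cast_nonneg _)
        _ = _ := by push_cast; ring
    exact_mod_cast h5
  have hN1 : 4 * C₁ ≤ N := by omega
  have hN2 : 2 * 3 ^ (D + 1) ≤ N := by omega
  have e1 : C₁ * (4 * N ^ 2) ≤ N ^ 3 := by
    calc C₁ * (4 * N ^ 2) = (4 * C₁) * N ^ 2 := by ring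
      _ ≤ N * N ^ 2 := Nat.mul_le_mul_right _ hN1
      _ = _ := by ring
  have e2 : 2 * (3 ^ (D + 1) * N ^ (D + 1)) ≤ N ^ (D + 2) := by
    calc 2 * (3 ^ (D + 1) * N ^ (D + 1)) = (2 * 3 ^ (D + 1)) * N ^ (D + 1) := by ring
      _ ≤ N * N ^ (D + 1) := Nat.mul_le_mul_right _ hN2
      _ = _ := by ring
  have e3 : N ^ 3 ≤ N ^ (D + 3) := Nat.pow_le_pow_right (by omega) (by omega)
  have e4 : N ^ (D + 2) * 2 ≤ N ^ (D + 3) := by
    rw [pow_succ N (D + 2)]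
    exact Nat.mul_le_mul_left _ (by omega)
  rcases Nat.eq_zero_or_pos D with hD0 | hD0
  · subst hD0
    -- `D = 0`: `N ^ 3 + N ^ 2`, use the smaller bounds
    have e5 : C₁ * (4 * N ^ 2) * 1 ≤ N ^ 3 := by linarith
    have e6 : 2 * FF Q (2 * N) ≤ 2 * (3 * N) := by
      have := hF2; simp at this; omega
    -- P (2N) ≤ C₁ 4 N^2 and 4 C₁ ≤ N - 10 or so
    have e7 : 4 * C₁ + 6 ≤ N := by
      have : 2 * 3 ^ (0 + 1) = 6 := by norm_num
      omega
    calc P (2 * N) + 2 * FF Q (2 * N) ≤ C₁ * (4 * N ^ 2) + 2 * (3 * N) := by omega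
      _ ≤ (4 * C₁ + 6) * N ^ 2 := by nlinarith
      _ ≤ N * N ^ 2 := Nat.mul_le_mul_right _ e7
      _ = N ^ (0 + 3) := by ring
  · have e8 : N ^ 3 * 2 ≤ N ^ (D + 3) := by
      calc N ^ 3 * 2 ≤ N ^ 3 * N := Nat.mul_le_mul_left _ (by omega)
        _ = N ^ 4 := by ring
        _ ≤ N ^ (D + 3) := Nat.pow_le_pow_right (by omega) (by omega)
    omega

lemma sum_pi {k : ℕ} (s : Fin k → Finset ℕ) (J : Finset ℕ) (p : Fin k → ℕ → ℕ → Prop) [∀ i n u, Decidable (p i n u)] :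
    ∑ b ∈ Fintype.piFinset s, (#(J.filter (fun n => ∀ i, p i n (b i))) : ℝ) =
      ∑ n ∈ J, ∏ i, (#((s i).filter (fun u => p i n u)) : ℝ) := by
  have h1 : ∀ b : Fin k → ℕ, (#(J.filter (fun n => ∀ i, p i n (b i))) : ℝ) =
      ∑ n ∈ J, ∏ i, (if p i n (b i) then (1 : ℝ) else 0) := by
    intro b
    rw [card_filter]; push_cast
    apply sum_congr rfl; intro n _
    rw [prod_ite_zero]
    simp
  simp_rw [h1]
  rw [sum_comm]
  apply sum_congr rfl; intro n _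
  rw [← prod_univ_sum s (fun i u => if p i n u then (1 : ℝ) else 0)]
  apply prod_congr rfl; intro i _
  rw [card_filter]; push_cast; rfl

lemma sum_pi_sq {k : ℕ} (s : Fin k → Finset ℕ) (J : Finset ℕ) (p : Fin k → ℕ → ℕ → Prop) [∀ i n u, Decidable (p i n u)] :
    ∑ b ∈ Fintype.piFinset s, (#(J.filter (fun n => ∀ i, p i n (b i))) : ℝ) ^ 2 =
      ∑ m ∈ J, ∑ n ∈ J, ∏ i, (#((s i).filter (fun u => p i m u ∧ p i n u)) : ℝ) := by
  have h1 : ∀ b : Fin k → ℕ, (#(J.filter (fun n => ∀ i, p i n (b i))) : ℝ) ^ 2 =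
      ∑ m ∈ J, ∑ n ∈ J, ∏ i, (if p i m (b i) ∧ p i n (b i) then (1 : ℝ) else 0) := by
    intro b
    have h0 : (#(J.filter (fun n => ∀ i, p i n (b i))) : ℝ) = ∑ n ∈ J, ∏ i, (if p i n (b i) then (1 : ℝ) else 0) := by
      rw [card_filter]; push_cast
      apply sum_congr rfl; intro n _
      rw [prod_ite_zero]
      simp
    rw [h0, sq, sum_mul_sum]
    apply sum_congr rfl; intro m _
    apply sum_congr rfl; intro n _
    rw [← prod_mul_distrib]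
    apply prod_congr rfl; intro i _
    by_cases h1 : p i m (b i) <;> by_cases h2 : p i n (b i) <;> simp [h1, h2]
  simp_rw [h1]
  rw [sum_comm]
  apply sum_congr rfl; intro m _
  rw [sum_comm]
  apply sum_congr rfl; intro n _
  rw [← prod_univ_sum s (fun i u => if p i m u ∧ p i n u then (1 : ℝ) else 0)]
  apply prod_congr rfl; intro i _
  rw [card_filter]; push_cast; rfl

lemma win_le {g h H : ℕ} (s : Finset ℕ) (hs : s = Ioc h (h + H)) (q : ℕ → Prop) [DecidablePred q]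
    (hq : ∀ u ∈ s, q u → (g + 2 * u).Prime) :
    #(s.filter q) ≤ #((Icc 1 (2 * H)).filter (fun v => (v + (g + 2 * h)).Prime)) := by
  subst hs
  apply card_le_card_of_injOn (fun u => 2 * (u - h))
  · intro u hu
    have hu0 := mem_filter.1 (mem_coe.1 hu)
    have hu1 := mem_Ioc.1 hu0.1
    have : 2 * (u - h) ∈ (Icc 1 (2 * H)).filter (fun v => (v + (g + 2 * h)).Prime) := by
      rw [mem_filter, mem_Icc]
      refine ⟨⟨by omega, by omega⟩, ?_⟩
      have h2 := hq u hu0.1 hu0.2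
      have e : 2 * (u - h) + (g + 2 * h) = g + 2 * u := by omega
      rw [e]; exact h2
    exact this
  · intro x hx y hy hxy
    have hx1 := mem_Ioc.1 (mem_filter.1 (mem_coe.1 hx)).1
    have hy1 := mem_Ioc.1 (mem_filter.1 (mem_coe.1 hy)).1
    simp only at hxy
    omega

lemma win_le2 {g g' h H : ℕ} (s : Finset ℕ) (hs : s = Ioc h (h + H)) :
    #(s.filter (fun u => (g + 2 * u).Prime ∧ (g' + 2 * u).Prime)) ≤
      #((Icc 1 (2 * H)).filter (fun v => (v + (g + 2 * h)).Prime ∧ (v + (g' + 2 * h)).Prime)) := by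
  subst hs
  apply card_le_card_of_injOn (fun u => 2 * (u - h))
  · intro u hu
    have hu0 := mem_filter.1 (mem_coe.1 hu)
    have hu1 := mem_Ioc.1 hu0.1
    have : 2 * (u - h) ∈ (Icc 1 (2 * H)).filter (fun v => (v + (g + 2 * h)).Prime ∧ (v + (g' + 2 * h)).Prime) := by
      rw [mem_filter, mem_Icc]
      refine ⟨⟨by omega, by omega⟩, ?_, ?_⟩
      · have e : 2 * (u - h) + (g + 2 * h) = g + 2 * u := by omega
        rw [e]; exact hu0.2.1
      · have e : 2 * (u - h) + (g' + 2 * h) = g' + 2 * u := by omega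
        rw [e]; exact hu0.2.2
    exact this
  · intro x hx y hy hxy
    have hx1 := mem_Ioc.1 (mem_filter.1 (mem_coe.1 hx)).1
    have hy1 := mem_Ioc.1 (mem_filter.1 (mem_coe.1 hy)).1
    simp only at hxy
    omega

end Pool.Agent.L7h2.ME
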