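import Pool.Agent.L7h2.ME.Stm

set_option autoImplicit false

namespace Pool.Agent.L7h2.ME

open Finset MeasureTheory Filter Polynomial

lemma meas_isPr (y : ℤ) (x β : ℝ) {k : ℕ} (i : Fin k) :
    MeasurableSet {α : Fin k → ℝ | IsPr (y + 2 * ⌊α i * x + β⌋)} := by
  have h1 : Measurable (fun α : Fin k → ℝ => ⌊α i * x + β⌋) :=
    Int.measurable_floor.comp ((((measurable_pi_apply i : Measurable (fun α : Fin k → ℝ => α i))).mul_const x).add_const β)
  exact h1 (MeasurableSet.of_discrete (s := {m : ℤ | IsPr (y + 2 * m)}))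

lemma meas_all {k : ℕ} (e : Fin k → ℕ) (Q : Fin k → ℝ[X]) (n : ℕ) :
    MeasurableSet {α : Fin k → ℝ | ∀ i, IsPr (pr n + 2 * ⌊α i * (n : ℝ) ^ e i + (Q i).eval (n : ℝ)⌋)} := by
  rw [Set.ofPred_forall]
  exact MeasurableSet.iInter fun i => meas_isPr _ _ _ i

open Classical in
lemma meas_card {X ι : Type*} [MeasurableSpace X] (s : Finset ι) (A : ι → Set X) (hA : ∀ n, MeasurableSet (A n)) :
    Measurable (fun α : X => (#(s.filter (fun n => α ∈ A n)) : ℕ)) := by
  have h : (fun α : X => (#(s.filter (fun n => α ∈ A n)) : ℕ)) =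
      fun α => ∑ n ∈ s, (A n).indicator (fun _ => (1 : ℕ)) α := by
    ext α
    rw [card_filter]
    refine sum_congr rfl fun n _ => ?_
    rw [Set.indicator_apply]
  rw [h]
  exact Finset.measurable_sum _ fun n _ => measurable_const.indicator (hA n)

lemma meas_cnt {k : ℕ} (e : Fin k → ℕ) (Q : Fin k → ℝ[X]) (N : ℕ) :
    Measurable (fun α : Fin k → ℝ => cnt e Q α N) := by
  unfold cnt
  have h := meas_card (Ioc N (2 * N)) (fun n => {α : Fin k → ℝ | ∀ i, IsPr (pr n + 2 * ⌊α i * (n : ℝ) ^ e i + (Q i).eval (n : ℝ)⌋)})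
    (fun n => meas_all e Q n)
  simp only [Set.mem_ofPred_eq] at h
  convert h

lemma meas_level {k : ℕ} (e : Fin k → ℕ) (Q : Fin k → ℝ[X]) (N : ℕ) (t : ℝ) :
    MeasurableSet {α : Fin k → ℝ | t ≤ cnt e Q α N} := by
  have h := meas_cnt e Q N
  have h2 : Measurable (fun α : Fin k → ℝ => (cnt e Q α N : ℝ)) := measurable_from_nat.comp h
  exact measurableSet_le measurable_const h2

open Classical in
theorem s_FIN (hBOX : S_BOX) (hZO : S_ZO) : S_FIN := by
  intro k e he
  obtain ⟨κ₀, c₀, hκ₀, hc₀, hbox⟩ := hBOX k e he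
  obtain ⟨κ, hκd⟩ : ∃ κ, κ = min κ₀ (c₀ / 4) := ⟨_, rfl⟩
  have hκ : 0 < κ := by rw [hκd]; exact lt_min hκ₀ (by positivity)
  have hκ1 : κ ≤ κ₀ := by rw [hκd]; exact min_le_left _ _
  have hκ2 : κ ≤ c₀ / 4 := by rw [hκd]; exact min_le_right _ _
  refine ⟨κ, hκ, fun Q hQ => ?_⟩
  set A : ℕ → Set (Fin k → ℝ) := fun j => {α | κ * (2 : ℝ) ^ j / Real.log (2 ^ j) ^ k ≤ cnt e Q α (2 ^ j)} with hA
  have hAm : ∀ j, MeasurableSet (A j) := fun j => meas_level e Q _ _
  set f : ℕ → (Fin k → ℝ) → ℕ := fun J α => #((range J).filter (fun j => α ∈ A j)) with hf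
  have hfm : ∀ J, Measurable (f J) := fun J => meas_card (range J) A hAm
  set E : ℕ → Set (Fin k → ℝ) := fun J => {α | κ * J ≤ f J α} with hE
  have hEm : ∀ J, MeasurableSet (E J) := fun J =>
    measurableSet_le measurable_const (measurable_from_nat.comp (hfm J))
  set U : Set (Fin k → ℝ) := {α | ∀ i, 0 < (Q i).coeff (e i + 1) ∨
    ((Q i).coeff (e i + 1) = 0 ∧ 0 < (Q i).coeff (e i) + α i)} with hU
  have hUo : IsOpen U := by
    rw [hU, Set.ofPred_forall]
    refine isOpen_iInter_of_finite fun i => ?_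
    rw [Set.ofPred_or, Set.ofPred_and]
    refine IsOpen.union isOpen_const (IsOpen.inter isOpen_const ?_)
    exact isOpen_lt continuous_const (continuous_const.add (continuous_apply i))
  have h := hZO k E hEm U hUo (c₀ / 4) (by positivity) (by
    intro a b hab hsub
    have hadm : ∀ i, Adm (e i) (Q i) (a i) (b i) := by
      intro i
      refine ⟨hab i, hQ i, ?_⟩
      have ha : a ∈ U := hsub ⟨le_rfl, fun j => (hab j).le⟩
      exact ha i
    obtain ⟨N₀, hN₀⟩ := hbox Q a b hadm
    refine ⟨2 * N₀ + 1, fun J hJ => ?_⟩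
    set Bx : Set (Fin k → ℝ) := {α | ∀ i, α i ∈ Set.Ioc (a i) (b i)} with hBx
    have hBxpi : Bx = Set.pi Set.univ (fun i => Set.Ioc (a i) (b i)) := by
      ext α; simp [hBx]
    have hBm : MeasurableSet Bx := by
      rw [hBxpi]; exact MeasurableSet.univ_pi fun i => measurableSet_Ioc
    have hBv : volume Bx = ENNReal.ofReal (∏ i, (b i - a i)) := by
      rw [hBxpi, Real.volume_pi_Ioc, ENNReal.ofReal_prod_of_nonneg]
      intro i _; linarith [hab i]
    have hV0 : 0 ≤ ∏ i, (b i - a i) := prod_nonneg fun i _ => by linarith [hab i]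
    set V : ℝ := ∏ i, (b i - a i) with hV
    have hfin : IsFiniteMeasure (volume.restrict Bx) := by
      refine ⟨?_⟩
      rw [Measure.restrict_apply_univ, hBv]
      exact ENNReal.ofReal_lt_top
    have hVr : (volume.restrict Bx).real Set.univ = V := by
      rw [measureReal_restrict_apply_univ, measureReal_def, hBv, ENNReal.toReal_ofReal hV0]
    have hset : ∀ S : Set (Fin k → ℝ), MeasurableSet S → (volume.restrict Bx).real S =
        volume.real {α | (∀ i, α i ∈ Set.Ioc (a i) (b i)) ∧ α ∈ S} := by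
      intro S hS
      rw [measureReal_restrict_apply hS]
      congr 1
      ext α
      simp only [hBx, Set.mem_inter_iff, Set.mem_ofPred_eq]
      exact and_comm
    rw [← hset (E J) (hEm J)]
    have hAlow : ∀ j ∈ range J, N₀ ≤ j → c₀ * V ≤ (volume.restrict Bx).real (A j) := by
      intro j _ hj
      have h2j : N₀ ≤ 2 ^ j := hj.trans (Nat.lt_two_pow_self).le
      have h1 := hN₀ (2 ^ j) h2j
      rw [hset (A j) (hAm j)]
      refine h1.trans ?_
      have hfin2 : volume {α : Fin k → ℝ | (∀ i, α i ∈ Set.Ioc (a i) (b i)) ∧ α ∈ A j} ≠ ⊤ := by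
        refine ne_top_of_le_ne_top (b := volume Bx) ?_ (measure_mono fun α hα => hα.1)
        rw [hBv]; exact ENNReal.ofReal_ne_top
      refine measureReal_mono ?_ hfin2
      rintro α ⟨h3, h4⟩
      refine ⟨h3, ?_⟩
      simp only [hA, Set.mem_ofPred_eq]
      refine le_trans ?_ h4
      push_cast
      rcases Nat.eq_zero_or_pos j with hj0 | hj0
      · subst hj0
        have : κ * (2 : ℝ) ^ 0 / Real.log (2 ^ 0) ^ k ≤ κ₀ * (2 : ℝ) ^ 0 / Real.log (2 ^ 0) ^ k := by
          simp only [pow_zero, Real.log_one, mul_one]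
          rcases Nat.eq_zero_or_pos k with hk | hk
          · subst hk; simpa using hκ1
          · rw [zero_pow (by omega)]; simp
        exact this
      · have hlog : 0 < Real.log ((2 : ℝ) ^ j) := Real.log_pos (one_lt_pow₀ (by norm_num) (by omega))
        gcongr
    -- the integral of `f J`
    have hint : ∀ S : Set (Fin k → ℝ), MeasurableSet S →
        ∫ α in Bx, S.indicator (fun _ => (1 : ℝ)) α = (volume.restrict Bx).real S := by
      intro S hS
      rw [integral_indicator hS]
      simp
    have hii : ∀ S : Set (Fin k → ℝ), MeasurableSet S →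
        Integrable (S.indicator (fun _ => (1 : ℝ))) (volume.restrict Bx) := fun S hS =>
      (integrable_const (1 : ℝ)).indicator hS
    have hfe : ∀ α, (f J α : ℝ) = ∑ j ∈ range J, (A j).indicator (fun _ => (1 : ℝ)) α := by
      intro α
      simp only [hf]
      rw [card_filter]
      push_cast
      refine sum_congr rfl fun j _ => ?_
      rw [Set.indicator_apply]
    have hI1 : ∫ α in Bx, (f J α : ℝ) = ∑ j ∈ range J, (volume.restrict Bx).real (A j) := by
      simp_rw [hfe]
      rw [integral_finsetSum _ fun j _ => hii (A j) (hAm j)]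
      exact sum_congr rfl fun j _ => hint (A j) (hAm j)
    have hI2 : ∫ α in Bx, (f J α : ℝ) ≤ κ * J * V + J * (volume.restrict Bx).real (E J) := by
      have h1 : ∫ α in Bx, (κ * J + J * (E J).indicator (fun _ => (1 : ℝ)) α) =
          κ * J * V + J * (volume.restrict Bx).real (E J) := by
        rw [integral_add (integrable_const _) ((hii (E J) (hEm J)).const_mul _),
          integral_const_mul (J : ℝ) ((E J).indicator (fun _ => (1 : ℝ))),
          hint (E J) (hEm J), integral_const, hVr, smul_eq_mul]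
        ring
      rw [← h1]
      refine integral_mono ?_ ((integrable_const _).add ((hii (E J) (hEm J)).const_mul _)) ?_
      · simp_rw [hfe]
        exact integrable_finsetSum _ fun j _ => hii (A j) (hAm j)
      · intro α
        show (f J α : ℝ) ≤ κ * J + J * (E J).indicator (fun _ => (1 : ℝ)) α
        have hfJ : (f J α : ℝ) ≤ J := by
          have : f J α ≤ J := (card_filter_le _ _).trans (by rw [card_range])
          exact_mod_cast this
        by_cases hα : α ∈ E J
        · rw [Set.indicator_of_mem hα]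
          have : 0 ≤ κ * J := by positivity
          linarith
        · rw [Set.indicator_of_notMem hα]
          simp only [hE, Set.mem_ofPred_eq, not_le] at hα
          linarith
    have hI3 : ((J : ℝ) - N₀) * (c₀ * V) ≤ ∑ j ∈ range J, (volume.restrict Bx).real (A j) := by
      have h1 : ∑ j ∈ (range J).filter (fun j => N₀ ≤ j), (c₀ * V) ≤ ∑ j ∈ range J, (volume.restrict Bx).real (A j) := by
        refine (sum_le_sum fun j hj => hAlow j (mem_filter.1 hj).1 (mem_filter.1 hj).2).trans ?_
        exact sum_le_sum_of_subset_of_nonneg (filter_subset _ _) fun _ _ _ => measureReal_nonneg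
      rw [sum_const, nsmul_eq_mul] at h1
      have h2 : (J : ℝ) - N₀ ≤ #((range J).filter (fun j => N₀ ≤ j)) := by
        have h3 : (range J).filter (fun j => N₀ ≤ j) = Ico N₀ J := by
          ext j; simp only [mem_filter, mem_range, mem_Ico]; tauto
        rw [h3, Nat.card_Ico, Nat.cast_sub (by omega)]
      exact (mul_le_mul_of_nonneg_right h2 (by positivity)).trans h1
    rw [← hI1] at hI3
    have h5 := hI3.trans hI2
    have hJ0 : (0 : ℝ) < J := by
      have : 0 < J := by omega
      exact_mod_cast this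
    have hJN : (N₀ : ℝ) ≤ J / 2 := by
      have : 2 * N₀ + 1 ≤ J := hJ
      have h6 : (2 * (N₀ : ℝ) + 1) ≤ J := by exact_mod_cast this
      linarith
    have h7 : (J : ℝ) / 2 * (c₀ * V) ≤ κ * J * V + J * (volume.restrict Bx).real (E J) := by
      refine le_trans ?_ h5
      exact mul_le_mul_of_nonneg_right (by linarith) (by positivity)
    have h8 : κ * J * V ≤ c₀ / 4 * J * V := by gcongr
    have h9 : (J : ℝ) * (c₀ / 4 * V) ≤ J * (volume.restrict Bx).real (E J) := by nlinarith
    exact le_of_mul_le_mul_left h9 hJ0)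
  filter_upwards [h] with α hα hU'
  refine (hα hU').mono fun J hJ => ?_
  exact hJ

end Pool.Agent.L7h2.ME
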