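import Pool.Agent.L7h2.ME.Fin

set_option autoImplicit false

namespace Pool.Agent.L7h2.ME

open Finset MeasureTheory Filter Polynomial

/-- number of the `n ∈ (N, 2N]` such that all the `p_n + 2 ⌊R_i(n)⌋` are primes -/
noncomputable def hits {k : ℕ} (R : Fin k → ℝ[X]) (N : ℕ) : ℕ :=
  open Classical in #((Ioc N (2 * N)).filter (fun n => ∀ i, IsPr (pr n + 2 * ⌊(R i).eval (n : ℝ)⌋)))

/-- many hits at many scales -/
def Often {k : ℕ} (κ : ℝ) (R : Fin k → ℝ[X]) : Prop :=
  open Classical in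
  ∃ᶠ J : ℕ in atTop, κ * J ≤ #((range J).filter (fun j => κ * (2 : ℝ) ^ j / Real.log (2 ^ j) ^ k ≤ hits R (2 ^ j)))

lemma cnt_hits {k : ℕ} (e : Fin k → ℕ) (Q : Fin k → ℝ[X]) (α : Fin k → ℝ) (N : ℕ) :
    cnt e Q α N = hits (fun i => Q i + C (α i) * X ^ e i) N := by
  classical
  unfold cnt hits
  congr 1
  apply filter_congr
  intro n _
  apply forall_congr'
  intro i
  rw [eval_add, eval_mul, eval_C, eval_pow, eval_X, add_comm ((Q i).eval (n : ℝ))]

lemma often_infinite {k : ℕ} {κ : ℝ} (hκ : 0 < κ) {R : Fin k → ℝ[X]} (h : Often κ R) :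
    ∃ᶠ n : ℕ in atTop, ∀ i, IsPr (pr n + 2 * ⌊(R i).eval (n : ℝ)⌋) := by
  classical
  rw [frequently_atTop]
  intro n₀
  unfold Often at h
  rw [frequently_atTop] at h
  -- some `j > n₀` with the property
  obtain ⟨J, hJ, hJ2⟩ := h (⌈(n₀ + 2) / κ⌉₊ + 1)
  have h1 : (n₀ : ℝ) + 2 ≤ κ * J := by
    have h2 : ((n₀ : ℝ) + 2) / κ ≤ J := (Nat.le_ceil _).trans (by exact_mod_cast (Nat.le_succ _).trans hJ)
    rw [div_le_iff₀ hκ] at h2
    linarith
  have h3 : n₀ + 2 ≤ #((range J).filter (fun j => κ * (2 : ℝ) ^ j / Real.log (2 ^ j) ^ k ≤ hits R (2 ^ j))) := by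
    have := h1.trans hJ2
    exact_mod_cast this
  obtain ⟨j, hj, hj2⟩ : ∃ j ∈ (range J).filter (fun j => κ * (2 : ℝ) ^ j / Real.log (2 ^ j) ^ k ≤ hits R (2 ^ j)), n₀ < j := by
    by_contra hcon
    push Not at hcon
    have h4 : (range J).filter (fun j => κ * (2 : ℝ) ^ j / Real.log (2 ^ j) ^ k ≤ hits R (2 ^ j)) ⊆ range (n₀ + 1) := by
      intro j hj
      have := hcon j hj
      rw [mem_range]; omega
    have h5 := card_le_card h4
    rw [card_range] at h5
    omega
  have hj3 := (mem_filter.1 hj).2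
  have hlog : 0 < Real.log ((2 : ℝ) ^ j) := Real.log_pos (one_lt_pow₀ (by norm_num) (by omega))
  have h6 : (0 : ℝ) < hits R (2 ^ j) := lt_of_lt_of_le (by positivity) hj3
  have h7 : 0 < hits R (2 ^ j) := by exact_mod_cast h6
  unfold hits at h7
  obtain ⟨n, hn⟩ := card_pos.1 h7
  rw [mem_filter, mem_Ioc] at hn
  refine ⟨n, ?_, hn.2⟩
  have : j < 2 ^ j := Nat.lt_two_pow_self
  omega

theorem part1 (hF : S_FIN) (k : ℕ) (e : Fin k → ℕ) (he : ∀ i, 1 ≤ e i) : ∃ κ : ℝ, 0 < κ ∧ ∀ Q : Fin k → ℝ[X],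
    (∀ i, (Q i).natDegree ≤ e i + 1) → ∀ᵐ α : Fin k → ℝ, (∀ i, 0 < (Q i + C (α i) * X ^ e i).leadingCoeff) →
      Often κ (fun i => Q i + C (α i) * X ^ e i) := by
  classical
  obtain ⟨κ, hκ, h⟩ := hF k e he
  refine ⟨κ, hκ, fun Q hQ => ?_⟩
  have h2 : ∀ᵐ α : Fin k → ℝ, ∀ i, α i ≠ -(Q i).coeff (e i) := by
    rw [ae_all_iff]
    intro i
    have h3 : volume {α : Fin k → ℝ | α i = -(Q i).coeff (e i)} = 0 := by
      rw [volume_pi]
      exact Measure.pi_hyperplane _ i _
    rw [ae_iff]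
    simpa using h3
  filter_upwards [h Q hQ, h2] with α h3 h4 h5
  have h6 : ∀ i, 0 < (Q i).coeff (e i + 1) ∨ ((Q i).coeff (e i + 1) = 0 ∧ 0 < (Q i).coeff (e i) + α i) := by
    intro i
    have hc1 : (Q i + C (α i) * X ^ e i).coeff (e i + 1) = (Q i).coeff (e i + 1) := by
      rw [coeff_add, coeff_C_mul, coeff_X_pow, if_neg (by omega), mul_zero, add_zero]
    have hc2 : (Q i + C (α i) * X ^ e i).coeff (e i) = (Q i).coeff (e i) + α i := by
      rw [coeff_add, coeff_C_mul, coeff_X_pow, if_pos rfl, mul_one]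
    have hdeg : (Q i + C (α i) * X ^ e i).natDegree ≤ e i + 1 := by
      refine (natDegree_add_le _ _).trans (max_le (hQ i) ?_)
      exact (natDegree_C_mul_X_pow_le _ _).trans (Nat.le_succ _)
    have h7 := h5 i
    by_cases hz : (Q i).coeff (e i + 1) = 0
    · right
      refine ⟨hz, ?_⟩
      have hne : (Q i + C (α i) * X ^ e i).coeff (e i) ≠ 0 := by
        rw [hc2]
        intro h8
        exact h4 i (by linarith)
      have hd2 : (Q i + C (α i) * X ^ e i).natDegree = e i := by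
        apply le_antisymm
        · by_contra hcon
          have h9 : (Q i + C (α i) * X ^ e i).natDegree = e i + 1 := by omega
          have h10 : (Q i + C (α i) * X ^ e i).leadingCoeff = 0 := by
            rw [leadingCoeff, h9, hc1, hz]
          rw [h10] at h7
          exact lt_irrefl _ h7
        · exact le_natDegree_of_ne_zero hne
      rw [leadingCoeff, hd2, hc2] at h7
      exact h7
    · left
      have hd2 : (Q i + C (α i) * X ^ e i).natDegree = e i + 1 := by
        apply le_antisymm hdeg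
        apply le_natDegree_of_ne_zero
        rw [hc1]; exact hz
      rw [leadingCoeff, hd2, hc1] at h7
      exact h7
  have h8 := h3 h6
  unfold Often
  refine h8.mono fun J hJ => ?_
  simp only [cnt_hits] at hJ
  exact hJ

end Pool.Agent.L7h2.ME
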