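import Pool.Agent.L7h2.ME.Cor

set_option autoImplicit false

namespace Pool.Agent.L7h2.ME

open Finset Filter Polynomial
open Pool.Agent.H646 (P rat)
open Pool.Agent.H646.TuplesM (rat_nonneg)
open Pool.Agent.H646.ChebM (P_le P_strictMono le_P)
open Pool.Agent.H342R2.SP (FF IntVal FF_cast FF_per FF_mono ev_Q g_lt MB PZ prod_le_sum_pow')
open Pool.Agent.H373R2.BH (pair_window single_window)

/-- splitting a symmetric double sum -/
lemma split_sum (I : Finset ℕ) (a : ℕ → ℕ → ℝ) (hs : ∀ m n, a m n = a n m) :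
    ∑ m ∈ I, ∑ n ∈ I, a m n = ∑ m ∈ I, a m m + 2 * ∑ m ∈ I, ∑ n ∈ I with m < n, a m n := by
  have h1 : ∀ m ∈ I, ∀ n ∈ I, a m n = (if m = n then a m m else 0) + ((if m < n then a m n else 0) +
      (if n < m then a n m else 0)) := by
    intro m _ n _
    rcases lt_trichotomy m n with h | h | h
    · simp [h, h.ne, h.not_gt]
    · subst h; simp
    · simp [h, h.ne', h.not_gt, hs m n]
  calc ∑ m ∈ I, ∑ n ∈ I, a m n = ∑ m ∈ I, ∑ n ∈ I, ((if m = n then a m m else 0) + ((if m < n then a m n else 0) +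
      (if n < m then a n m else 0))) := sum_congr rfl fun m hm => sum_congr rfl fun n hn => h1 m hm n hn
    _ = ∑ m ∈ I, ∑ n ∈ I, (if m = n then a m m else 0) + (∑ m ∈ I, ∑ n ∈ I, (if m < n then a m n else 0) +
      ∑ m ∈ I, ∑ n ∈ I, (if n < m then a n m else 0)) := by
        simp only [sum_add_distrib]
    _ = _ := by
        rw [sum_comm (f := fun m n => if n < m then a n m else 0)]
        simp only [sum_filter]
        have : ∑ m ∈ I, ∑ n ∈ I, (if m = n then a m m else 0) = ∑ m ∈ I, a m m := by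
          apply sum_congr rfl; intro m hm
          rw [sum_ite_eq, if_pos hm]
        rw [this]; ring

open Classical in
theorem s_SS (hLOW : S_LOW) : S_SS := by
  obtain ⟨δ, hδ, hδ4, hlow⟩ := hLOW
  refine ⟨δ, hδ, hδ4, fun k d => ?_⟩
  rcases Nat.eq_zero_or_pos k with hk0 | hk
  · -- no polynomials
    subst hk0
    refine ⟨1, one_pos, fun Q _ _ _ => ⟨0, fun N _ h H _ _ => ?_⟩⟩
    have e1 : ∀ b : Fin 0 → ℕ, (1 : ℝ) * N / Real.log N ^ 0 ≤
        #((Ico N (2 * N)).filter (fun n => ∀ i, (P n + 2 * FF (Q i) n + 2 * b i).Prime)) := by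
      intro b
      rw [filter_true_of_mem (fun n _ i => i.elim0), Nat.card_Ico]
      have : 2 * N - N = N := by omega
      rw [this]; simp
    rw [filter_true_of_mem (fun b _ => e1 b)]
    simp
  choose cl hcl hlow using fun i => hlow (d i)
  obtain ⟨Cp, hCp, Ap, Hp, hpair⟩ := pair_window
  obtain ⟨Cs, hCs, Ht, hsgl⟩ := single_window
  set D : ℕ := univ.sup d with hD
  have hdD : ∀ i, d i ≤ D := fun i => le_sup (mem_univ i)
  obtain ⟨Cm, hCm, hmb0⟩ := MB D (D + 3) (Ap * k) (by omega)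
  have hCm0 : 0 < Cm := by linarith
  set Pc : ℝ := ∏ i, cl i with hPc
  have hPc0 : 0 < Pc := prod_pos fun i _ => hcl i
  set K₂ : ℝ := (8 * Cs) ^ k + 2 * (32 * Cp) ^ k * (k * Cm) with hK₂
  have hK₂0 : 0 < K₂ := by positivity
  set K : ℝ := 4 * K₂ / Pc ^ 2 with hK
  have hK0 : 0 < K := by positivity
  set c : ℝ := min (1 / (4 * K)) (Pc / 4) with hc
  have hc0 : 0 < c := lt_min (by positivity) (by positivity)
  refine ⟨c, hc0, fun Q hint hlc hdeg => ?_⟩
  choose n₀ hmono hper N₁ hsize using fun i => size (Q i) (hint i) (hlc i) D (by rw [hdeg i]; exact hdD i)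
  choose N₂ hN₂ using fun i => hlow i (Q i) (hint i) (hlc i) (hdeg i) (1 / (2 * k)) (by positivity)
  -- thresholds
  set n₁ : ℕ := univ.sup n₀ with hn₁
  obtain ⟨N₃, hmb⟩ := hmb0 n₁
  have hperm : ∀ i, Pool.Agent.H342R2.SP.Per (FF (Q i)) D n₁ := by
    intro i l hl hDl n hn
    exact hper i l hl hDl n ((le_sup (f := n₀) (mem_univ i)).trans hn)
  have hlogev : ∀ᶠ N : ℕ in atTop, Real.log N ^ k ≤ N := by
    have h := (isLittleO_log_rpow_rpow_atTop (k : ℝ) (show (0 : ℝ) < 1 by norm_num)).bound (show (0 : ℝ) < 1 by norm_num)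
    have h2 := tendsto_natCast_atTop_atTop.eventually h
    filter_upwards [h2, eventually_ge_atTop 1] with N hN hN1
    have hlog : 0 ≤ Real.log N := Real.log_natCast_nonneg N
    rw [one_mul, Real.rpow_natCast, Real.rpow_one, Real.norm_of_nonneg (pow_nonneg hlog k),
      Real.norm_of_nonneg (Nat.cast_nonneg N)] at hN
    exact hN
  have hbig : ∀ᶠ N : ℕ in atTop, ((Hp + Ht : ℕ) : ℝ) ≤ (N : ℝ) ^ (1 / 4 : ℝ) :=
    ((tendsto_rpow_atTop (show (0 : ℝ) < 1 / 4 by norm_num)).comp tendsto_natCast_atTop_atTop).eventually_ge_atTop _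
  have hlog1 : ∀ᶠ N : ℕ in atTop, 1 ≤ Real.log N :=
    (Real.tendsto_log_atTop.comp tendsto_natCast_atTop_atTop).eventually_ge_atTop 1
  obtain ⟨N₄, hN₄⟩ := eventually_atTop.1 (hlogev.and (hbig.and hlog1))
  refine ⟨univ.sup N₁ + univ.sup N₂ + N₃ + N₄ + n₁ + 3, fun N hN h H hH hHN => ?_⟩
  have hN1 : ∀ i, N₁ i ≤ N := fun i => (le_sup (f := N₁) (mem_univ i)).trans (by omega)
  have hN2 : ∀ i, N₂ i ≤ N := fun i => (le_sup (f := N₂) (mem_univ i)).trans (by omega)
  obtain ⟨hLN, hbigN, hL1⟩ := hN₄ N (by omega)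
  have hN3 : 3 ≤ N := by omega
  have hNn1 : n₁ ≤ N := by omega
  have hNr : (3 : ℝ) ≤ N := by exact_mod_cast hN3
  set L := Real.log N with hL
  have hL0 : 0 < L := by linarith
  -- the ranges of the shifts
  have hHN4 : ∀ i, (N : ℝ) ^ (1 / 4 : ℝ) ≤ H i := fun i =>
    (Real.rpow_le_rpow_of_exponent_le (by linarith) (ex_ge hδ4 (d i))).trans (hH i)
  have hHpt : ∀ i, Hp + Ht ≤ H i := by
    intro i
    have := hbigN.trans (hHN4 i)
    exact_mod_cast this
  have hH0 : ∀ i, (0 : ℝ) < H i := fun i => lt_of_lt_of_le (by positivity) (hHN4 i)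
  have hlogH : ∀ i, L / 4 ≤ Real.log ((2 * H i : ℕ) : ℝ) := by
    intro i
    have h1 : Real.log ((N : ℝ) ^ (1 / 4 : ℝ)) ≤ Real.log ((2 * H i : ℕ) : ℝ) := by
      apply Real.log_le_log (by positivity)
      push_cast
      linarith [hHN4 i, hH0 i]
    rw [Real.log_rpow (by linarith)] at h1
    linarith
  set s : Fin k → Finset ℕ := fun i => Ioc (h i) (h i + H i) with hs
  have hscard : ∀ i, #(s i) = H i := fun i => by rw [hs]; simp
  set g : Fin k → ℕ → ℕ := fun i n => P n + 2 * FF (Q i) n with hg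
  set I := Ico N (2 * N) with hI
  have hcardI : #I = N := by rw [hI, Nat.card_Ico]; omega
  set J := I.filter (fun n => ∀ i, cl i * H i / L ≤ #((s i).filter (fun u => (g i n + 2 * u).Prime))) with hJ
  have hJI : J ⊆ I := filter_subset _ _
  have hJcard : (N : ℝ) / 2 ≤ #J := by
    have h1 : #(I.filter (fun n => ¬ ∀ i, cl i * H i / L ≤ #((s i).filter (fun u => (g i n + 2 * u).Prime)))) ≤
        ∑ i : Fin k, #(I.filter (fun n => (#((s i).filter (fun u => (g i n + 2 * u).Prime)) : ℝ) < cl i * H i / L)) := by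
      refine (card_le_card ?_).trans card_biUnion_le
      intro n hn
      rw [mem_filter] at hn
      obtain ⟨hn1, hn2⟩ := hn
      push Not at hn2
      obtain ⟨i, hi⟩ := hn2
      rw [mem_biUnion]
      exact ⟨i, mem_univ i, mem_filter.2 ⟨hn1, hi⟩⟩
    have h2 : ∀ i : Fin k, (#(I.filter (fun n => (#((s i).filter (fun u => (g i n + 2 * u).Prime)) : ℝ) < cl i * H i / L)) : ℝ) ≤
        1 / (2 * k) * N := fun i => hN₂ i N (hN2 i) (h i) (H i) (hH i) (hHN i)
    have h3 : (#(I.filter (fun n => ¬ ∀ i, cl i * H i / L ≤ #((s i).filter (fun u => (g i n + 2 * u).Prime)))) : ℝ) ≤ N / 2 := by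
      calc (#(I.filter (fun n => ¬ ∀ i, cl i * H i / L ≤ #((s i).filter (fun u => (g i n + 2 * u).Prime)))) : ℝ) ≤
            ∑ i : Fin k, (#(I.filter (fun n => (#((s i).filter (fun u => (g i n + 2 * u).Prime)) : ℝ) < cl i * H i / L)) : ℝ) := by
              exact_mod_cast h1
        _ ≤ ∑ _i : Fin k, 1 / (2 * (k : ℝ)) * N := sum_le_sum fun i _ => h2 i
        _ = N / 2 := by
            rw [sum_const, card_univ, Fintype.card_fin, nsmul_eq_mul]
            have : (k : ℝ) ≠ 0 := by positivity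
            field_simp
    have h4 := card_filter_add_card_filter_not (s := I)
      (fun n => ∀ i, cl i * H i / L ≤ #((s i).filter (fun u => (g i n + 2 * u).Prime)))
    have h5 : (#J : ℝ) + #(I.filter (fun n => ¬ ∀ i, cl i * H i / L ≤ #((s i).filter (fun u => (g i n + 2 * u).Prime)))) = N := by
      rw [hJ]; rw [← hcardI]; exact_mod_cast h4
    linarith
  set B := Fintype.piFinset s with hB
  have hcB : (#B : ℝ) = ∏ i, (H i : ℝ) := by
    rw [hB, Fintype.card_piFinset]
    push_cast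
    exact prod_congr rfl fun i _ => by rw [hscard i]
  set VH : ℝ := ∏ i, (H i : ℝ) with hVH
  have hVH0 : 0 < VH := prod_pos fun i _ => hH0 i
  set μ : ℝ := N / 2 * Pc / L ^ k with hμ
  have hμ0 : 0 < μ := by positivity
  set f : (Fin k → ℕ) → ℝ := fun b => (#(J.filter (fun n => ∀ i, (g i n + 2 * b i).Prime)) : ℝ) with hf
  have hfirst : μ * #B ≤ ∑ b ∈ B, f b := by
    rw [hcB]
    have h0 := sum_pi s J (fun i n u => (g i n + 2 * u).Prime)
    rw [hf, hB, h0]
    have h1 : ∀ n ∈ J, Pc * VH / L ^ k ≤ ∏ i, (#((s i).filter (fun u => (g i n + 2 * u).Prime)) : ℝ) := by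
      intro n hn
      have h2 := (mem_filter.1 hn).2
      calc Pc * VH / L ^ k = ∏ i, (cl i * H i / L) := by
            rw [prod_div_distrib, prod_mul_distrib, prod_const, card_univ, Fintype.card_fin]
        _ ≤ _ := prod_le_prod (fun i _ => by have := hcl i; have := hH0 i; positivity) (fun i _ => h2 i)
    have h2 := card_nsmul_le_sum _ _ _ h1
    rw [nsmul_eq_mul] at h2
    refine le_trans ?_ h2
    have h3 : 0 ≤ Pc * VH / L ^ k := by positivity
    calc μ * VH = (N / 2) * (Pc * VH / L ^ k) := by rw [hμ]; ring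
      _ ≤ #J * (Pc * VH / L ^ k) := mul_le_mul_of_nonneg_right hJcard h3
  have hsecond : ∑ b ∈ B, f b ^ 2 ≤ K * μ ^ 2 * #B := by
    rw [hcB]
    have h0 := sum_pi_sq s J (fun i n u => (g i n + 2 * u).Prime)
    rw [hf, hB]
    simp only
    rw [h0]
    set a : ℕ → ℕ → ℝ := fun m n => ∏ i, (#((s i).filter (fun u => (g i m + 2 * u).Prime ∧ (g i n + 2 * u).Prime)) : ℝ) with ha
    have ha0 : ∀ m n, 0 ≤ a m n := fun m n => prod_nonneg fun _ _ => Nat.cast_nonneg _
    have hasymm : ∀ m n, a m n = a n m := by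
      intro m n
      simp only [ha]
      apply prod_congr rfl; intro i _
      congr 2
      apply filter_congr; intro u _
      exact and_comm
    have hJsum : ∑ m ∈ J, ∑ n ∈ J, a m n ≤ ∑ m ∈ I, ∑ n ∈ I, a m n := by
      refine (sum_le_sum fun m _ => sum_le_sum_of_subset_of_nonneg hJI fun n _ _ => ha0 m n).trans ?_
      exact sum_le_sum_of_subset_of_nonneg hJI fun m _ _ => sum_nonneg fun n _ => ha0 m n
    refine hJsum.trans ?_
    have hadiag : ∀ m, a m m ≤ (8 * Cs) ^ k * VH / L ^ k := by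
      intro m
      calc a m m ≤ ∏ i : Fin k, (8 * Cs * H i / L) := prod_le_prod (fun _ _ => Nat.cast_nonneg _) (fun i _ => by
              have h3 := win_le (g := g i m) (h := h i) (H := H i) (s i) rfl
                (fun u => (g i m + 2 * u).Prime ∧ (g i m + 2 * u).Prime) (fun u _ hu => hu.1)
              have h4 : (#((s i).filter (fun u => (g i m + 2 * u).Prime ∧ (g i m + 2 * u).Prime)) : ℝ) ≤
                  #((Icc 1 (2 * H i)).filter (fun v => (v + (g i m + 2 * h i)).Prime)) := by exact_mod_cast h3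
              refine h4.trans ((hsgl (2 * H i) (by have := hHpt i; omega) (g i m + 2 * h i)).trans ?_)
              have h5 := hlogH i
              have h6 : 0 < L / 4 := by positivity
              calc Cs * ((2 * H i : ℕ) : ℝ) / Real.log ((2 * H i : ℕ) : ℝ) ≤ Cs * ((2 * H i : ℕ) : ℝ) / (L / 4) :=
                    div_le_div_of_nonneg_left (by positivity) h6 h5
                _ = _ := by push_cast; field_simp; ring)
        _ = _ := by
            rw [prod_div_distrib, prod_mul_distrib, prod_const, prod_const, card_univ, Fintype.card_fin]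
    have hoff : ∀ m ∈ I, ∀ n ∈ I, m < n → a m n ≤ ((32 * Cp) ^ k * VH / L ^ (2 * k)) * ∑ i, rat (g i n - g i m) ^ (Ap * k) := by
      intro m hm n hn hmn
      have hm1 := mem_Ico.1 hm
      have h1 : ∀ i, (#((s i).filter (fun u => (g i m + 2 * u).Prime ∧ (g i n + 2 * u).Prime)) : ℝ) ≤
          (32 * Cp * H i / L ^ 2) * rat (g i n - g i m) ^ Ap := by
        intro i
        have hlt : g i m < g i n := g_lt (hmono i) (((le_sup (f := n₀) (mem_univ i)).trans hNn1).trans hm1.1) hmn
        have h2 := hpair (2 * H i) (by have := hHpt i; omega) (g i n + 2 * h i) (g i m + 2 * h i) (by omega)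
        have e0 : g i n + 2 * h i - (g i m + 2 * h i) = g i n - g i m := by omega
        rw [e0] at h2
        have h3 := win_le2 (g := g i m) (g' := g i n) (h := h i) (H := H i) (s i) rfl
        have h4 : (#((s i).filter (fun u => (g i m + 2 * u).Prime ∧ (g i n + 2 * u).Prime)) : ℝ) ≤
            #((Icc 1 (2 * H i)).filter (fun v => (v + (g i m + 2 * h i)).Prime ∧ (v + (g i n + 2 * h i)).Prime)) := by
          exact_mod_cast h3
        refine h4.trans (h2.trans ?_)
        apply mul_le_mul_of_nonneg_right _ (pow_nonneg (rat_nonneg _) _)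
        have h5 := hlogH i
        have h6 : (L / 4) ^ 2 ≤ Real.log ((2 * H i : ℕ) : ℝ) ^ 2 := pow_le_pow_left₀ (by positivity) h5 2
        calc Cp * ((2 * H i : ℕ) : ℝ) / Real.log ((2 * H i : ℕ) : ℝ) ^ 2 ≤ Cp * ((2 * H i : ℕ) : ℝ) / (L / 4) ^ 2 :=
              div_le_div_of_nonneg_left (by positivity) (by positivity) h6
          _ = _ := by push_cast; field_simp; ring
      calc a m n ≤ ∏ i, ((32 * Cp * H i / L ^ 2) * rat (g i n - g i m) ^ Ap) :=
            prod_le_prod (fun _ _ => Nat.cast_nonneg _) (fun i _ => h1 i)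
        _ = ((32 * Cp) ^ k * VH / L ^ (2 * k)) * ∏ i, rat (g i n - g i m) ^ Ap := by
            rw [prod_mul_distrib, prod_div_distrib, prod_mul_distrib, prod_const, prod_const, card_univ,
              Fintype.card_fin, ← pow_mul]
        _ ≤ ((32 * Cp) ^ k * VH / L ^ (2 * k)) * ∑ i, (rat (g i n - g i m) ^ Ap) ^ k := by
            apply mul_le_mul_of_nonneg_left _ (by positivity)
            exact prod_le_sum_pow' hk _ (fun i => pow_nonneg (rat_nonneg _) _)
        _ = _ := by simp_rw [← pow_mul]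
    rw [split_sum I a hasymm]
    have hd : ∑ m ∈ I, a m m ≤ (8 * Cs) ^ k * (VH * ((N : ℝ) ^ 2 / L ^ (2 * k))) := by
      calc ∑ m ∈ I, a m m ≤ ∑ _m ∈ I, (8 * Cs) ^ k * VH / L ^ k := sum_le_sum fun m _ => hadiag m
        _ = (8 * Cs) ^ k * VH * (N / L ^ k) := by
            rw [sum_const, hcardI, nsmul_eq_mul]; ring
        _ ≤ (8 * Cs) ^ k * VH * ((N : ℝ) ^ 2 / L ^ (2 * k)) := by
            apply mul_le_mul_of_nonneg_left _ (by positivity)
            rw [div_le_div_iff₀ (by positivity) (by positivity), two_mul k, pow_add]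
            calc (N : ℝ) * (L ^ k * L ^ k) = (L ^ k) * (N * L ^ k) := by ring
              _ ≤ N * (N * L ^ k) := mul_le_mul_of_nonneg_right hLN (by positivity)
              _ = _ := by ring
        _ = _ := by ring
    have ho : ∑ m ∈ I, ∑ n ∈ I with m < n, a m n ≤ (32 * Cp) ^ k * VH / L ^ (2 * k) * ((k * Cm) * (N : ℝ) ^ 2) := by
      calc ∑ m ∈ I, ∑ n ∈ I with m < n, a m n ≤
          ∑ m ∈ I, ∑ n ∈ I with m < n, ((32 * Cp) ^ k * VH / L ^ (2 * k)) * ∑ i, rat (g i n - g i m) ^ (Ap * k) := by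
            apply sum_le_sum; intro m hm
            apply sum_le_sum; intro n hn
            exact hoff m hm n (mem_filter.1 hn).1 (mem_filter.1 hn).2
        _ = ((32 * Cp) ^ k * VH / L ^ (2 * k)) * ∑ i, ∑ m ∈ I, ∑ n ∈ I with m < n, rat (g i n - g i m) ^ (Ap * k) := by
            simp_rw [← mul_sum]
            congr 1
            calc ∑ m ∈ I, ∑ n ∈ I with m < n, ∑ i, rat (g i n - g i m) ^ (Ap * k) =
                ∑ m ∈ I, ∑ i, ∑ n ∈ I with m < n, rat (g i n - g i m) ^ (Ap * k) :=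
                  sum_congr rfl fun m _ => sum_comm
              _ = _ := sum_comm
        _ ≤ ((32 * Cp) ^ k * VH / L ^ (2 * k)) * ∑ _i : Fin k, Cm * (N : ℝ) ^ 2 := by
            apply mul_le_mul_of_nonneg_left _ (by positivity)
            apply sum_le_sum; intro i _
            exact hmb (FF (Q i)) (hperm i) (fun n hn => hmono i n ((le_sup (f := n₀) (mem_univ i)).trans hn)) N
              (by omega) (hsize i N (hN1 i))
        _ = _ := by rw [sum_const, card_univ, Fintype.card_fin, nsmul_eq_mul]; ring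
    have e2 : K * μ ^ 2 * VH = K₂ * (VH * ((N : ℝ) ^ 2 / L ^ (2 * k))) := by
      rw [hK, hμ, mul_comm 2 k, pow_mul]
      field_simp
      norm_num
    rw [e2]
    calc ∑ m ∈ I, a m m + 2 * ∑ m ∈ I, ∑ n ∈ I with m < n, a m n ≤
        (8 * Cs) ^ k * (VH * ((N : ℝ) ^ 2 / L ^ (2 * k))) +
          2 * ((32 * Cp) ^ k * VH / L ^ (2 * k) * ((k * Cm) * (N : ℝ) ^ 2)) := by
          linarith
      _ = _ := by rw [hK₂]; ring
  have hPZ := PZ B f μ K hμ0 hK0 hfirst hsecond
  have hc1 : c ≤ 1 / (4 * K) := min_le_left _ _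
  have hc2 : c ≤ Pc / 4 := min_le_right _ _
  have hthr : c * N / L ^ k ≤ μ / 2 := by
    calc c * N / L ^ k ≤ Pc / 4 * N / L ^ k := by gcongr
      _ = μ / 2 := by rw [hμ]; ring
  calc c * VH ≤ 1 / (4 * K) * VH := mul_le_mul_of_nonneg_right hc1 hVH0.le
    _ = (#B : ℝ) / (4 * K) := by rw [hcB]; ring
    _ ≤ _ := hPZ
    _ ≤ _ := by
        apply Nat.cast_le.2
        apply card_le_card
        intro b hb
        rw [mem_filter] at hb ⊢
        refine ⟨hb.1, (hthr.trans hb.2).trans ?_⟩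
        simp only [hf]
        rw [Nat.cast_le]
        exact card_le_card (filter_subset_filter _ hJI)

end Pool.Agent.L7h2.ME
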