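import Mathlib

/-!
# Project ME (helper2): primes `p_n + 2 ⌊Q(n) + α n^e⌋` for almost every real `α` (MP_3aaefc_nt)

THEOREM (S_FIN). Let `Q_1, …, Q_k` be real polynomials, `e_i ≥ 1`, `deg Q_i ≤ e_i + 1`. There is `κ > 0` (depending only on the `e_i`)
such that for almost every real vector `α` for which the polynomials `R_i = Q_i + α_i x^{e_i}` have positive leading coefficient:
for infinitely many `N` (even for the dyadic `N = 2^j`, `j` in a set of upper density `≥ κ`) at least `κ N / (log N)^k` of the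
`n ∈ (N, 2N]` are such that `p_n + 2 ⌊R_i(n)⌋` is prime for all `i`.

PROOF. Every part is a `def S_X : Prop` below, with a complete proof in its docstring. Please put the theorem
`Pool.Agent.L7h<you>.ME.s_X : S_X` (or `s_X (h : S_Y) : S_X` with the hypotheses named in the docstring) in
`Pool/Agent/L7h<you>/ME/<X>.lean`, land it and tell me (topic helper2). If a statement is wrong (an edge case), repair it and tell me.
-/

set_option autoImplicit false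

namespace Pool.Agent.L7h2.ME

open Finset MeasureTheory Filter Polynomial

/-- `p_n`, the `n`-th prime -/
noncomputable def pr (n : ℕ) : ℕ := Nat.nth Nat.Prime (n - 1)

/-- the integer `m` is a prime number -/
def IsPr (m : ℤ) : Prop := ∃ q : ℕ, q.Prime ∧ (q : ℤ) = m

/-- the `α ∈ (a, b]` such that `y + 2 ⌊α x + β⌋` is a prime -/
def AA (y : ℤ) (x β a b : ℝ) : Set ℝ := {α | α ∈ Set.Ioc a b ∧ IsPr (y + 2 * ⌊α * x + β⌋)}

/-- divisor sums (the same as `Pool.Agent.W25.UB.ds`) -/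
noncomputable def ds (c : ℕ → ℝ) (Z : ℕ) (m : ℤ) : ℝ :=
  ∑ d ∈ Icc 1 Z, c d * (if (d : ℤ) ∣ m then 1 else 0)

/-- the Fejér kernel of period `d`: `∑_{|l| < d} (d - |l|) / d² cos (2π l u / d) = (1/d²) |∑_{h < d} e(h u / d)|²` -/
noncomputable def FK (d : ℕ) (u : ℝ) : ℝ :=
  ∑ l ∈ Ioo (-(d : ℤ)) d, (((d : ℝ) - |(l : ℝ)|) / (d : ℝ) ^ 2) * Real.cos (2 * Real.pi * (l : ℝ) * u / d)

/-- (KER), 150 lines, Mathlib only. A smooth majorant of the sieve weight `ds c Z (y + 2 ⌊t⌋)`.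
Proof. `FK M u = (1/M²) |∑_{h < M} e(h u / M)|² ≥ 0` (expand the square; or: `(M sin (π u / M))² FK M u = sin² (π u)`), it has period
`M`, and `FK M u ≥ 4 / π²` for `|u| ≤ 1/2` (`= 1` at `u = 0`; otherwise `FK M u = (sin (π u) / (M sin (π u / M)))² ≥
(sin (π u) / (π u))² ≥ (2/π)²`, Jordan's inequality `Real.mul_le_sin`).
For `d ∣ M` and an integer `r`: `∑_{m ∈ [0, M), m ≡ r (mod d)} FK M (t - m - 1/2) = FK d (t - r - 1/2)`: insert the definition, the sum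
over `m = r + d j` (`j` mod `M/d`) of `cos (2π l (t - m - 1/2) / M)` is zero unless `(M/d) ∣ l`, and for `l = (M/d) l'` the weights
are `(M/d) (M - |l|) / M² = (d - |l'|) / d²`. Let `M` be the product of the odd `d ≤ Z`. For odd `d`: `d ∣ y + 2 m ⟺ m ≡ r_d (mod d)`.
So `∑_d c_d FK d (t - r_d - 1/2) = ∑_{m ∈ [0, M)} FK M (t - m - 1/2) ds c Z (y + 2m)`; all the terms are `≥ 0`, `ds c Z (y + 2m)` has
period `M` in `m`, and the term with `m ≡ ⌊t⌋ (mod M)` is `≥ (4/π²) ds c Z (y + 2⌊t⌋)` as `|t - ⌊t⌋ - 1/2| ≤ 1/2`. -/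
def S_KER : Prop := ∀ (c : ℕ → ℝ) (Z : ℕ), (∀ d, c d ≠ 0 → Odd d) → (∀ m : ℤ, 0 ≤ ds c Z m) →
  ∀ (y : ℤ) (r : ℕ → ℤ), (∀ d : ℕ, Odd d → (d : ℤ) ∣ y + 2 * r d) → ∀ t : ℝ,
  ds c Z (y + 2 * ⌊t⌋) ≤ (Real.pi ^ 2 / 4) * ∑ d ∈ Icc 1 Z, c d * FK d (t - r d - 1 / 2)

/-- (INT), 100 lines, Mathlib only. The integral of a product of two kernels, if there is no resonance.
Proof. Insert the definition of `FK`. The sum of the weights `∑_{|l| < d} (d - |l|) / d²` is `1` (and each is `≥ 0`). The term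
`l = l' = 0` is `(b - a) / (d d')`. For the others `2 cos A cos B = cos (A + B) + cos (A - B)`, and for `w ≠ 0`
`|∫_a^b cos (2π w α + φ) dα| ≤ 1 / (π |w|) ≤ 1 / (π T)`, used with `w = l x / d ± l' x' / d'` (apply the hypothesis to `(l, l')` and
to `(l, -l')`). -/
def S_INT : Prop := ∀ (d d' : ℕ), 1 ≤ d → 1 ≤ d' → ∀ (x x' s s' a b T : ℝ), a ≤ b → 0 < T →
  (∀ l l' : ℤ, |l| < d → |l'| < d' → (l ≠ 0 ∨ l' ≠ 0) → T ≤ |(l : ℝ) * x / d + (l' : ℝ) * x' / d'|) →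
  |(∫ α in a..b, FK d (α * x - s) * FK d' (α * x' - s')) - (b - a) / ((d : ℝ) * d')| ≤ 2 / T

/-- `(n, n')` is a resonant pair -/
def Res (e N n n' : ℕ) : Prop := ∃ d d' : ℕ, 1 ≤ d ∧ 1 ≤ d' ∧ (d : ℝ) ≤ (N : ℝ) ^ (1 / 50 : ℝ) ∧
  (d' : ℝ) ≤ (N : ℝ) ^ (1 / 50 : ℝ) ∧ ∃ l l' : ℤ, |l| < d ∧ |l'| < d' ∧ (l ≠ 0 ∨ l' ≠ 0) ∧
    |(l : ℝ) * (n : ℝ) ^ e / d + (l' : ℝ) * (n' : ℝ) ^ e / d'| < (N : ℝ) ^ (13 / 100 : ℝ)

/-- (PAIR), 200 lines, from S_KER, S_INT and the starting library: `Pool.Agent.W356.UBSel.main : Pool.Agent.W25.UB.St_SEL` (Selberg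
weights on the primes of a finite set `P`), `Pool.Agent.R516.ggb` (lower bound of `GG (Pr X ε₁) z`, `Pr X ε₁` the primes `≤ X^ε₁`)
and `Pool.Agent.R516.GG_q` (with `q = 2`: `P = Pr N ε₁ \ {2}`). The sieve bound for almost all pairs, without singular series.
Proof. Take `ε₁ ≤ 1/100` from `ggb 1 (1/100)`, `P` as said, `z = ⌊N^(1/100)⌋`, `Z = z²`, the Selberg weights `c`, with
`∑_{d ≤ Z} c_d / d = 1 / GG P z ≤ C₁ / log N`, `|c_d| ≤ 3^ω(d) ≤ d²`, `c_d = 0` for even `d` (as `2 ∉ P`), `ds c Z ≥ 0` and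
`ds c Z m = 1` if no prime of `P` divides `m` (e.g. if `m` is a prime `> N^ε₁`). `AA y x β a b` is, up to the set where
`y + 2 ⌊α x + β⌋` is a prime `≤ N^ε₁` (measure `≤ N^ε₁ / x`, as `⌊α x + β⌋ = m` for an interval of `α` of length `1/x`; `x = n^e ≥ N`),
contained in `{α ∈ (a, b] : 1 ≤ G(α)}`, `G(α) = (π²/4) ∑_{d ≤ Z} c_d FK d (α x - s_d) ≥ 0` by S_KER with `t = α x + β`
(`s_d = r_d + 1/2 - β`). So the measure is at most `∫_a^b G G' + 2 N^ε₁ / N`, and by S_INT with `T = N^(13/100)`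
`∫_a^b G G' ≤ (π²/4)² ((b - a) (∑ c_d / d)² + (∑_{d ≤ Z} |c_d|)² 2 / T)`, `(∑ |c_d|)² ≤ (z² z⁴)² ≤ N^(12/100)`. -/
def S_PAIR : Prop := ∃ C : ℝ, 0 < C ∧ ∀ e : ℕ, 1 ≤ e → ∀ a b : ℝ, a < b → ∃ N₀ : ℕ, ∀ N : ℕ, N₀ ≤ N →
  ∀ n ∈ Ioc N (2 * N), ∀ n' ∈ Ioc N (2 * N), ¬ Res e N n n' → ∀ (y y' : ℤ) (β β' : ℝ),
    volume.real (AA y ((n : ℝ) ^ e) β a b ∩ AA y' ((n' : ℝ) ^ e) β' a b) ≤ C * (b - a) / Real.log N ^ 2

open Classical in
/-- (RES), 100 lines, Mathlib only. Few pairs are resonant.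
Proof. There are at most `(N^(1/50))² (2 N^(1/50))² = 4 N^(8/100)` quadruples `(d, d', l, l')`. If `l' = 0` then `l ≠ 0` and
`|l| n^e / d ≥ N^(1 - 1/50) ≥ N^(13/100)`, so there is no resonance, similarly if `l = 0` or if `l, l'` have the same sign. Otherwise
`n'^e` lies, for given `n`, in an interval of length `2 N^(13/100) d' / |l'| ≤ 2 N^(15/100)`, and there are at most
`2 N^(15/100) + 1` such `n'` (`n'^e` are different integers). Altogether `≤ 4 N^(8/100) N (2 N^(15/100) + 1) ≤ N^(3/2)`. -/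
def S_RES : Prop := ∀ e : ℕ, 1 ≤ e → ∃ N₀ : ℕ, ∀ N : ℕ, N₀ ≤ N →
  (#((Ioc N (2 * N) ×ˢ Ioc N (2 * N)).filter (fun p => Res e N p.1 p.2)) : ℝ) ≤ (N : ℝ) ^ (3 / 2 : ℝ)

/-- the sum of `log p` over the primes `x < p < y` -/
noncomputable def th (x y : ℕ) : ℝ := ∑ p ∈ (Ioo x y).filter Nat.Prime, Real.log p

/-- (PTS), 100 lines, from `Pool.Agent.L7h29.BP.s_BVJ Pool.Agent.L7h18.BP.bvp Pool.Agent.L7h18.BW.s_POOR : S_BVJ`
(`Pool/Agent/L7h18/BP/Gen.lean`; imports `Pool.Agent.L7h29.BP.Bvj`, `Pool.Agent.L7h18.BP.All`, `Pool.Agent.L7h18.BW.Poor`): primes in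
all intervals up to a small set of points. Proof. Let `δ₁` be the exponent of S_BVJ (`A = 0`, only its first conclusion is used; it
has `thI x y 1 0`). Apply S_BVJ with the heights `2^j X`, `j ≤ J`, `2^J ≥ L`, and let `B` be the union of the sets of points, the
points `2^j X`, and the points of a progression `⌊1.05^i X⌋` up to `L X`; `#B ≤ C (2^J X)^(1/2 - δ₁) ≤ X^(1/2 - δ)` for `δ = δ₁ / 2` (take `δ₁ ≤ 1/4`) and
large `X`. Cut `(x, y)` at the points of `B`; to every piece `[b + 1, b' - 1]` that is longer than `(2^J X)^(1/2 - δ₁)` S_BVJ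
applies (it contains no point of `B`, so it lies in one `[2^j X, 2^(j+1) X]` and `b' ≤ 1.1 b`), the other pieces and the cuts
lose at most `(#(B ∩ [x, y]) + 1) ((2^J X)^(1/2 - δ₁) + 2)`. (Induction over the points of `B` in `[x, y]`, or over `y - x`: split at
one point of `B`.) -/
def S_PTS : Prop := ∃ δ c : ℝ, 0 < δ ∧ δ < 1 / 2 ∧ 0 < c ∧ ∀ L : ℝ, 1 ≤ L → ∃ X₀ : ℕ, ∀ X : ℕ, X₀ ≤ X →
  ∃ B : Finset ℕ, (B.card : ℝ) ≤ (X : ℝ) ^ (1 / 2 - δ) ∧ ∀ x y : ℕ, X ≤ x → (y : ℝ) ≤ L * X → x ≤ y →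
  c * ((y : ℝ) - x - ((#(B ∩ Icc x y) : ℝ) + 1) * (X : ℝ) ^ (1 / 2 - δ)) ≤ th x y

/-- the condition on `(a, b]`: the polynomials `Q + α x^e`, `α ∈ [a, b]`, have degree `e` or `e + 1` and positive leading
coefficient -/
def Adm (e : ℕ) (Q : ℝ[X]) (a b : ℝ) : Prop := a < b ∧ Q.natDegree ≤ e + 1 ∧
  (0 < Q.coeff (e + 1) ∨ (Q.coeff (e + 1) = 0 ∧ 0 < Q.coeff e + a))

open Classical in
/-- (WIN), 250 lines, from S_PTS. For almost all `n` the numbers `p_n + 2 ⌊α n^e + Q(n)⌋`, `α ∈ (a, b]`, are primes with the right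
frequency. Proof. Let `m = e + 1` if `Q.coeff (e + 1) > 0` and `m = e` otherwise, `R_a = Q + a x^e`, `R_b = Q + b x^e` (degree `m`,
positive leading coefficients). Put `u_n = p_n + 2 R_a(n)`, `v_n = p_n + 2 R_b(n)`, so `v_n - u_n = 2 (b - a) n^e`. If `q` is an odd prime with
`u_n < q ≤ v_n - 2` (and `p_n` is odd) then `q = p_n + 2 m'` with `m' > R_a(n)`, `m' + 1 ≤ R_b(n)`, and the set of the `α` with
`⌊α n^e + Q(n)⌋ = m'` is the interval `[(m' - Q(n)) / n^e, (m' + 1 - Q(n)) / n^e)` of length `n^(-e)`, contained in `(a, b]`; these intervals are disjoint.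
So `volume (AA …) ≥ n^(-e) #{primes in (u_n, v_n - 2]} ≥ n^(-e) th(⌈u_n⌉, ⌊v_n⌋ - 2) / log v_n`.
For large `N` all the `u_n, v_n`, `n ∈ (N, 2N]`, are in `[X, L X]`, `X = ⌊c₁ N^m⌋` if `m ≥ 2`, `X = ⌊c₁ N log N⌋` if `m = 1` (by Chebyshev
`c n log n ≤ p_n ≤ C n log n`, e.g. `Pool.Agent.H646.ChebM.P_le`, `le_P`; and `p_n ≤ C n log n` is negligible for `m ≥ 2`), `L` a constant.
Let `B` be the set of S_PTS. `S_PTS` gives `#primes · log ≥ c ((v_n - u_n) / 2)` unless `(#(B ∩ [u_n, v_n]) + 1) X^(1/2 - δ) ≥ (v_n - u_n) / 4`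
(`X^(1/2-δ) ≤ (b - a) N^e / 100` for large `N`, as `m / 2 ≤ e`), so unless `#(B ∩ [u_n, v_n]) ≥ c₂ N^e X^(δ - 1/2)`.
As `u_n` is increasing with `u_{n+1} - u_n ≥ c₃ N^(m - 1)` (for `m = 1`: `p_n` and `R_a` increase), every point of `B` lies in at most
`C₄ N^(e + 1 - m)` of the intervals `[u_n, v_n]`; so the number of the exceptional `n` is at most
`X^(1/2 - δ) C₄ N^(e + 1 - m) / (c₂ N^e X^(δ - 1/2)) = C X^(1 - 2δ) N^(1 - m) ≤ C N^(1 - 2δ m) log N ≤ η N`. The constant is `c / (2 (e + 2))` or so,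
as `log v_n ≤ (e + 2) log N`. -/
def S_WIN : Prop := ∀ e : ℕ, 1 ≤ e → ∃ c : ℝ, 0 < c ∧ ∀ (Q : ℝ[X]) (a b : ℝ), Adm e Q a b → ∀ η : ℝ, 0 < η →
  ∃ N₀ : ℕ, ∀ N : ℕ, N₀ ≤ N → (#((Ioc N (2 * N)).filter (fun n =>
    volume.real (AA (pr n) ((n : ℝ) ^ e) (Q.eval (n : ℝ)) a b) < c * (b - a) / Real.log N)) : ℝ) ≤ η * N

open Classical in
/-- the number of `n ∈ (N, 2N]` such that all the `p_n + 2 ⌊α_i n^{e_i} + Q_i(n)⌋` are primes -/
noncomputable def cnt {k : ℕ} (e : Fin k → ℕ) (Q : Fin k → ℝ[X]) (α : Fin k → ℝ) (N : ℕ) : ℕ :=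
  #((Ioc N (2 * N)).filter (fun n => ∀ i, IsPr (pr n + 2 * ⌊α i * (n : ℝ) ^ e i + (Q i).eval (n : ℝ)⌋)))

/-- (BOX), 250 lines, from S_PAIR, S_RES, S_WIN: second moment. Proof. Let `c_i` be the constants of S_WIN for `e_i` and `C` that of
S_PAIR. Let `J` be the set of the `n ∈ (N, 2N]` with `volume.real (AA …_i) ≥ c_i (b_i - a_i) / log N` for all `i`; `#J ≥ N / 2` for large `N`
(S_WIN with `η = 1 / (2k + 1)`). For `α` in the box let `X(α)` be the number of the `n ∈ J` such that all the `p_n + 2 ⌊…⌋` are primes, so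
`X(α) = ∑_{n ∈ J} ∏_i 1_{A_i(n)}(α_i) ≤ cnt`. With `V = ∏ (b_i - a_i)`: `∫ X = ∑_{n ∈ J} ∏_i vol A_i(n) ≥ #J V ∏ c_i / (log N)^k =: μ V`, and
`∫ X² = ∑_{n, n' ∈ J} ∏_i vol (A_i(n) ∩ A_i(n')) ≤ (#J)² V C^k / (log N)^(2k) + k N^(3/2) V` (the pairs that are resonant for some `e_i`
trivially, S_RES). For large `N` this is `≤ 2 (#J)² V C^k / (log N)^(2k) = K μ² V`, `K = 2 C^k / (∏ c_i)²`. Paley and Zygmund:
`vol {X ≥ μ / 2} ≥ V / (4K)` (`∫_{X ≥ μ/2} X ≥ μ V / 2`, Cauchy-Schwarz). `κ = ∏ c_i / 8`, `c = 1 / (4 K)`. The sets are measurable (countable unions of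
boxes); volumes of products: `Real.volume_pi_…`, `MeasureTheory.Measure.pi_pi`; `∏ i` of intersections. `k = 0` is trivial. -/
def S_BOX : Prop := ∀ (k : ℕ) (e : Fin k → ℕ), (∀ i, 1 ≤ e i) → ∃ κ c : ℝ, 0 < κ ∧ 0 < c ∧
  ∀ (Q : Fin k → ℝ[X]) (a b : Fin k → ℝ), (∀ i, Adm (e i) (Q i) (a i) (b i)) → ∃ N₀ : ℕ, ∀ N : ℕ, N₀ ≤ N →
    c * ∏ i, (b i - a i) ≤ volume.real {α : Fin k → ℝ | (∀ i, α i ∈ Set.Ioc (a i) (b i)) ∧
      κ * N / Real.log N ^ k ≤ cnt e Q α N}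

/-- (ZO), 100 lines, Mathlib only. A zero-one law from Lebesgue's density theorem. Proof. Let `F = ⋂_n ⋃_{N ≥ n} E_N`. For every
box in `U`: `c vol ≤ vol (box ∩ ⋃_{N ≥ n} E_N)` for all `n`, so `c vol (box) ≤ vol (box ∩ F)` (continuity from above, the boxes have finite volume).
Almost every point `x` of the measurable set `S = U \ F` is a point of density of `S` (e.g.
`IsUnifLocDoublingMeasure.ae_tendsto_measure_inter_div` or `Besicovitch.ae_tendsto_measure_inter_div`; the closed balls of `Fin k → ℝ` with the sup norm are the cubes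
`Set.Icc (x - r) (x + r)`), but `vol (S ∩ cube) ≤ (1 - c) vol (cube)` for all small cubes around `x`, a contradiction; so `vol S = 0`. -/
def S_ZO : Prop := ∀ (k : ℕ) (E : ℕ → Set (Fin k → ℝ)), (∀ N, MeasurableSet (E N)) → ∀ U : Set (Fin k → ℝ), IsOpen U →
  ∀ c : ℝ, 0 < c → (∀ a b : Fin k → ℝ, (∀ i, a i < b i) → Set.Icc a b ⊆ U → ∃ N₀ : ℕ, ∀ N : ℕ, N₀ ≤ N →
    c * ∏ i, (b i - a i) ≤ volume.real {α | (∀ i, α i ∈ Set.Ioc (a i) (b i)) ∧ α ∈ E N}) →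
  ∀ᵐ α : Fin k → ℝ, α ∈ U → ∃ᶠ N in atTop, α ∈ E N

open Classical in
/-- (FIN), helper2, from S_BOX and S_ZO (applied to the sets of the `α` with `#{j < J : …} ≥ κ' J`). -/
def S_FIN : Prop := ∀ (k : ℕ) (e : Fin k → ℕ), (∀ i, 1 ≤ e i) → ∃ κ : ℝ, 0 < κ ∧ ∀ Q : Fin k → ℝ[X],
  (∀ i, (Q i).natDegree ≤ e i + 1) → ∀ᵐ α : Fin k → ℝ,
    (∀ i, 0 < (Q i).coeff (e i + 1) ∨ ((Q i).coeff (e i + 1) = 0 ∧ 0 < (Q i).coeff (e i) + α i)) →
    ∃ᶠ J : ℕ in atTop, κ * J ≤ #((range J).filter (fun j => κ * (2 : ℝ) ^ j / Real.log (2 ^ j) ^ k ≤ cnt e Q α (2 ^ j)))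

/-- the polynomial with the coefficients `c` -/
noncomputable def pol {d : ℕ} (c : Fin (d + 1) → ℝ) : ℝ[X] := ∑ j : Fin (d + 1), C (c j) * X ^ (j : ℕ)

open Classical in
/-- (AEP), 150 lines, from S_FIN by Fubini's theorem: almost every real polynomial of degree `d ≥ 1` with positive leading
coefficient. Proof. The set of the `(c, c')` (`k = 2` for simplicity here; in general `c : (i : Fin k) → Fin (d i + 1) → ℝ`) with the property is
measurable (a countable combination of the sets `{⌊pol c (n)⌋ = m}`), and for fixed lower coefficients almost all the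
vectors of the leading coefficients `(c i (d i))_i` have it by S_FIN with `e = d` and `Q_i` the polynomial with the lower coefficients
(`Q_i.coeff (e_i + 1) = 0 = Q_i.coeff e_i`; `0 < α_i`). Use a measure preserving equivalence which separates the leading coefficients, e.g.
`MeasurableEquiv.piFinSuccAbove` / `Fin.snocEquiv`-like for every `i`, or `MeasureTheory.volume_preserving_…`. -/
def S_AEP : Prop := ∀ (k : ℕ) (d : Fin k → ℕ), (∀ i, 1 ≤ d i) → ∃ κ : ℝ, 0 < κ ∧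
  ∀ᵐ c : ((i : Fin k) → Fin (d i + 1) → ℝ), (∀ i, 0 < c i (Fin.last (d i))) →
    ∃ᶠ J : ℕ in atTop, κ * J ≤ #((range J).filter (fun j => κ * (2 : ℝ) ^ j / Real.log (2 ^ j) ^ k ≤
      (#((Ioc (2 ^ j) (2 * 2 ^ j)).filter (fun n => ∀ i, IsPr (pr n + 2 * ⌊(pol (c i)).eval (n : ℝ)⌋))) : ℝ)))

end Pool.Agent.L7h2.ME
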