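import Pool.Agent.L7h2.ME.Stm
import Pool.Agent.H342R2.SP.F

/-!
# Project ME, second theorem (SS): short shifts of integer-valued polynomials (MP_3aaefc_nt)

THEOREM (S_SS). There is `δ > 0` such that for integer-valued polynomials `P_1, …, P_k` of degrees `d_i` with positive leading
coefficients and all large `N`: in every box of shifts `b_i ∈ (h_i, h_i + H_i]` with `H_i ≥ N^{d_i - 1 - δ}` (`H_i ≥ N^{1/2 - δ}` if
`d_i ≤ 1`), for a positive proportion of the `b` at least `c N / (log N)^k` of the `n ∈ (N, 2N]` are such that all the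
`p_n + 2 (P_i(n) + b_i)` are primes. So the shifts are smaller than the differences of consecutive values of the polynomial.
-/

set_option autoImplicit false

namespace Pool.Agent.L7h2.ME

open Finset Filter Polynomial
open Pool.Agent.H646 (P)
open Pool.Agent.H342R2.SP (FF IntVal)

/-- the exponents: `1/2 - δ` for degree `≤ 1`, `d - 1 - δ` for degree `d ≥ 2` -/
noncomputable def ex (δ : ℝ) (d : ℕ) : ℝ := if d ≤ 1 then 1 / 2 - δ else (d : ℝ) - 1 - δ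

open Classical in
/-- (LOW), 200 lines, from S_PTS. Enough primes in the windows behind almost all the `p_{n+1} + 2 Q(n+1)` (`P n` is the prime with
index `n`, counted from `0`, `FF Q n = Q(n+1)`, see `FF_cast` in `Pool/Agent/H342R2/SP/F.lean`). Proof. Let `δ₀` be the exponent of S_PTS and `δ = δ₀ / 2`.
Put `g(n) = P n + 2 FF Q n` (odd for `n ≥ 1`), `m = max d 1`. For large `N` all the numbers `g(n) + 2 h`, `g(n) + 2 h + 2 H`, `N ≤ n < 2N`, are in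
`[X, L X]`, where `X = ⌊c₁ N^d⌋` if `d ≥ 2` and `X = ⌊c₁ N log N⌋` if `d ≤ 1` (Chebyshev), `L` a constant (depending on `Q`); let `B` be the set of S_PTS.
With `x = g(n) + 2 h`, `y = g(n) + 2 h + 2 H + 1`: the primes in `(x, y)` are the `g(n) + 2 u`, `u ∈ (h, h + H]`, so the number of these
`u` is at least `th x y / log y ≥ c (2 H - (#(B ∩ [x, y]) + 1) X^(1/2 - δ₀)) / log y ≥ c H / (4 (d + 2) log N)`, say, unless
`(#(B ∩ [x, y]) + 1) X^(1/2 - δ₀) ≥ H`. Since `X^(1/2 - δ₀) ≤ H / 4` for large `N` (`d ≤ 1`: `(N log N)^(1/2 - 2δ) = o(N^(1/2 - δ))`; `d ≥ 2`: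
`N^(d/2 - 2dδ) = o(N^(d - 1 - δ))`), this implies `#(B ∩ [x, y]) ≥ (H/2) X^(δ₀ - 1/2)`. As `g` is increasing with differences at least `s`, `s = 1` for `d ≤ 1`,
`s = c₃ N^(d-1)` for `d ≥ 2`, every point of `B` lies in at most `2 H / s + 2` of these intervals, so the number of exceptional `n` is at
most `X^(1/2 - δ₀) (2 H / s + 2) / ((H/2) X^(δ₀ - 1/2)) = 4 X^(1 - 2δ₀) (1/s + 1/H)`. For `d ≤ 1` this is `≤ 8 (C N log N)^(1 - 4δ)`, for `d ≥ 2` it is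
`≤ C N^(d - 4dδ) (N^(1 - d) + N^(1 - d + δ)) ≤ C N^(1 - 7δ)`. -/
def S_LOW : Prop := ∃ δ : ℝ, 0 < δ ∧ δ < 1 / 4 ∧ ∀ d : ℕ, ∃ c : ℝ, 0 < c ∧ ∀ Q : ℚ[X], IntVal Q → 0 < Q.leadingCoeff →
  Q.natDegree = d → ∀ η : ℝ, 0 < η → ∃ N₀ : ℕ, ∀ N : ℕ, N₀ ≤ N → ∀ h H : ℕ, (N : ℝ) ^ ex δ d ≤ H → h + H ≤ N ^ max d 1 →
    (#((Ico N (2 * N)).filter (fun n => (#((Ioc h (h + H)).filter (fun u => (P n + 2 * FF Q n + 2 * u).Prime)) : ℝ) <
      c * H / Real.log N)) : ℝ) ≤ η * N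

open Classical in
/-- (SS), helper2, from S_LOW: second moment as in `Pool.Agent.H342R2.SP.core`. -/
def S_SS : Prop := ∃ δ : ℝ, 0 < δ ∧ δ < 1 / 4 ∧ ∀ (k : ℕ) (d : Fin k → ℕ), ∃ c : ℝ, 0 < c ∧ ∀ Q : Fin k → ℚ[X],
  (∀ i, IntVal (Q i)) → (∀ i, 0 < (Q i).leadingCoeff) → (∀ i, (Q i).natDegree = d i) →
  ∃ N₀ : ℕ, ∀ N : ℕ, N₀ ≤ N → ∀ h H : Fin k → ℕ, (∀ i, (N : ℝ) ^ ex δ (d i) ≤ H i) → (∀ i, h i + H i ≤ N ^ max (d i) 1) →
    c * ∏ i, (H i : ℝ) ≤ #((Fintype.piFinset (fun i => Ioc (h i) (h i + H i))).filter (fun b =>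
      c * N / Real.log N ^ k ≤ #((Ico N (2 * N)).filter (fun n => ∀ i, (P n + 2 * FF (Q i) n + 2 * b i).Prime))))

end Pool.Agent.L7h2.ME
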